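import Pool.Agent.N600.L3.Stm

/-!
# Project L3 (helper600), page MP_d69e80_al: the characters are integral (INTG)
-/

set_option autoImplicit false

namespace Pool.Agent.N401.L3

open Pool.Agent.N600.L3
open Polynomial

universe u

section

variable {M : Type u} [Group M]

/-- the additive map as a homomorphism -/
def fm (f : M → ℂ) (hf : ∀ x ∈ commutator M, ∀ y ∈ commutator M, f (x * y) = f x + f y) :
    commutator M →* Multiplicative ℂ :=
  MonoidHom.mk' (fun x => Multiplicative.ofAdd (f x)) fun x y => by
    rw [← ofAdd_add, ← hf x x.2 y y.2]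
    rfl

/-- the additive map on the abelianization -/
noncomputable def fa (f : M → ℂ)
    (hf : ∀ x ∈ commutator M, ∀ y ∈ commutator M, f (x * y) = f x + f y) :
    Additive (Abelianization (commutator M)) →+ ℂ :=
  AddMonoidHom.mk' (fun a => Multiplicative.toAdd (Abelianization.lift (fm f hf) a.toMul))
    fun x y => by
      rw [toMul_add, map_mul, toAdd_mul]

theorem fa_mk (f : M → ℂ) (hf : ∀ x ∈ commutator M, ∀ y ∈ commutator M, f (x * y) = f x + f y)
    (x : commutator M) : fa f hf (Additive.ofMul (Abelianization.of x)) = f x := by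
  change Multiplicative.toAdd (Abelianization.lift (fm f hf) (Abelianization.of x)) = f x
  rw [Abelianization.lift_apply_of]
  rfl

theorem fa_range (f : M → ℂ)
    (hf : ∀ x ∈ commutator M, ∀ y ∈ commutator M, f (x * y) = f x + f y) (y : ℂ) :
    y ∈ LinearMap.range (fa f hf).toIntLinearMap ↔ ∃ x ∈ commutator M, f x = y := by
  constructor
  · rintro ⟨a, rfl⟩
    obtain ⟨x, hx⟩ := QuotientGroup.mk_surjective (s := commutator (commutator M)) a.toMul
    refine ⟨x, x.2, ?_⟩
    rw [← fa_mk f hf x]
    change _ = fa f hf a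
    congr 1
  · rintro ⟨x, hx, rfl⟩
    exact ⟨Additive.ofMul (Abelianization.of ⟨x, hx⟩), fa_mk f hf ⟨x, hx⟩⟩

end

theorem fin_ab {N : Type u} [Group N] (h : Group.FG N) :
    Module.Finite ℤ (Additive (Abelianization N)) := by
  have h1 : Group.FG (Abelianization N) := inferInstanceAs (Group.FG (N ⧸ commutator N))
  have h2 : AddGroup.FG (Additive (Abelianization N)) := inferInstance
  exact Module.Finite.iff_addGroup_fg.2 h2

theorem aeval_mul {L : Submodule ℤ ℂ} (z : ℂ) (t : Module.End ℤ L)
    (ht : ∀ l : L, ((t l : L) : ℂ) = z * l) (p : ℤ[X]) (l : L) :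
    ((aeval t p l : L) : ℂ) = aeval z p * l := by
  have hpow : ∀ (n : ℕ) (l : L), (((t ^ n) l : L) : ℂ) = z ^ n * l := by
    intro n
    induction n with
    | zero => intro l; simp
    | succ n ih =>
      intro l
      rw [pow_succ, Module.End.mul_apply, ih, ht]
      ring
  induction p using Polynomial.induction_on' with
  | add p q hp hq =>
    rw [map_add, LinearMap.add_apply, Submodule.coe_add, hp, hq, map_add, add_mul]
  | monomial n c =>
    rw [aeval_monomial, aeval_monomial, Module.End.mul_apply, Module.algebraMap_end_apply,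
      Submodule.coe_smul, hpow]
    simp [mul_assoc]

theorem t_intg : S_INTG.{u} := by
  intro M _ hfg χ f hf hχ hne m
  have hN : Group.FG (commutator M) := (Group.fg_iff_subgroup_fg _).2 hfg
  have hA := fin_ab hN
  set L : Submodule ℤ ℂ := LinearMap.range (fa f hf).toIntLinearMap with hL
  have hmem := fa_range f hf
  rw [← hL] at hmem
  have hLfg : L.FG := by
    rw [hL, LinearMap.range_eq_map]
    exact Module.Finite.fg_top.map _
  have hne' : L ≠ ⊥ := by
    obtain ⟨x, hx, hx'⟩ := hne
    intro h
    have h1 : f x ∈ L := (hmem _).2 ⟨x, hx, rfl⟩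
    rw [h, Submodule.mem_bot] at h1
    exact hx' h1
  set z : ℂ := (χ m : ℂ) with hz
  have hst : ∀ l ∈ L, z * l ∈ L := by
    intro l hl
    obtain ⟨x, hx, rfl⟩ := (hmem l).1 hl
    rw [← hχ m x hx]
    have hn : (commutator M).Normal := inferInstance
    exact (hmem _).2 ⟨_, hn.conj_mem x hx m, rfl⟩
  have hint : IsIntegral ℤ z := by
    refine isIntegral_of_smul_mem_submodule (M := ℂ) L hne' hLfg z fun l hl => ?_
    rw [smul_eq_mul]
    exact hst l hl
  refine ⟨hint, fun r hr => ?_⟩
  have hfin : Module.Finite ℤ L := Module.Finite.of_fg hLfg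
  have hfree : Module.Free ℤ L := inferInstance
  let t : Module.End ℤ L :=
    { toFun := fun l => ⟨z * l, hst l l.2⟩
      map_add' := fun x y => by
        apply Subtype.ext
        simp [mul_add]
      map_smul' := fun c x => by
        apply Subtype.ext
        simp
        ring }
  have ht : ∀ l : L, ((t l : L) : ℂ) = z * l := fun l => rfl
  obtain ⟨l, hl, hl0⟩ := Submodule.exists_mem_ne_zero_of_ne_bot hne'
  have h0 : aeval z t.charpoly = 0 := by
    have h1 := aeval_mul z t ht t.charpoly ⟨l, hl⟩
    rw [LinearMap.aeval_self_charpoly] at h1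
    have h2 : aeval z t.charpoly * l = 0 := by
      rw [← h1]
      rfl
    exact (mul_eq_zero.1 h2).resolve_right hl0
  have hdeg := minpoly.min ℤ z t.charpoly_monic h0
  have h1 : (minpoly ℤ z).natDegree ≤ t.charpoly.natDegree := natDegree_le_natDegree hdeg
  rw [LinearMap.charpoly_natDegree] at h1
  refine h1.trans ?_
  have h2 := lift_rank_range_le (fa f hf).toIntLinearMap
  rw [← hL, ← Module.finrank_eq_rank ℤ L, Cardinal.lift_natCast] at h2
  have h3 : ((Module.finrank ℤ L : ℕ) : Cardinal.{u}) ≤ (r : Cardinal.{u}) := by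
    refine h2.trans ?_
    rw [Cardinal.lift_uzero]
    exact hr
  exact Nat.cast_le.1 h3

end Pool.Agent.N401.L3
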